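import Pool.Agent.W5h92.HH.Profile

/-!
# MP_151d89_pr : the sliding lemma and the shape of the boundary profile

`Hom`, `Gibbs`, `Extremal` (the notions of the frozen statement) and `perp e = (-e.2, e.1)` are
defined in `Pool.Agent.W5h92.HH`.
-/

set_option autoImplicit false

open MeasureTheory Filter
open scoped ENNReal Topology

namespace Pool.Agent.Results.MP_151d89_pr.LineFreezing

open Pool.Agent.W5h92.HH

/-- The property of Q1. -/
def AlmostFrozen (μ : Measure (ℤ × ℤ → ℤ)) : Prop :=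
  ∃ e : ℤ × ℤ, |e.1| + |e.2| = 1 ∧ ∀ v : ℤ × ℤ, ∀ᵐ f ∂μ,
    Tendsto (fun n : ℕ => ((f (v + (n : ℤ) • e) - f v : ℤ) : ℝ) / (n : ℝ)) atTop (𝓝 1)

/-- `σ f` is eventually `c + n` along the ray `v + n e`. -/
def Ev (μ : Measure (ℤ × ℤ → ℤ)) (σ : ℤ) (v e : ℤ × ℤ) (c : ℤ) : Prop :=
  ∀ᵐ f ∂μ, ∀ᶠ n : ℕ in atTop, σ * f (v + (n : ℤ) • e) = c + n

/-- `σ f` is `c + n` along the whole line `v + n e`, `n ∈ ℤ`. -/
def Line (μ : Measure (ℤ × ℤ → ℤ)) (σ : ℤ) (v e : ℤ × ℤ) (c : ℤ) : Prop :=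
  ∀ᵐ f ∂μ, ∀ n : ℤ, σ * f (v + n • e) = c + n

theorem almostFrozen_of_line {μ : Measure (ℤ × ℤ → ℤ)} (hμ : μ ∈ Gibbs) {σ : ℤ}
    (hσ : σ = 1 ∨ σ = -1) {v e : ℤ × ℤ} (he : |e.1| + |e.2| = 1) {c : ℤ}
    (h : Line μ σ v e c) : AlmostFrozen μ := by
  rcases hσ with rfl | rfl
  · refine ⟨e, he, fun w => ?_⟩
    filter_upwards [h, hμ.2.1] with f hf hhom
    have h1 : ∀ᶠ n : ℕ in atTop, (1 : ℤ) * f (v + (n : ℤ) • e) = c + n :=
      Eventually.of_forall fun n => hf n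
    simpa using ratio hhom (Or.inl rfl) h1 w
  · refine ⟨-e, by simpa using he, fun w => ?_⟩
    filter_upwards [h, hμ.2.1] with f hf hhom
    have h1 : ∀ᶠ n : ℕ in atTop, (1 : ℤ) * f (v + (n : ℤ) • (-e)) = -c + n := by
      refine Eventually.of_forall fun n => ?_
      have := hf (-(n : ℤ))
      rw [smul_neg, ← neg_smul]
      linarith
    simpa using ratio hhom (Or.inl rfl) h1 w

/-- (1) Sliding lemma, for every Gibbs measure: a line in direction `e` on which the eventual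
profile of `σ f` has a strict local minimum (across `e`) is frozen completely.
(2) If `μ` is extremal and `σ f` is bounded below at some site `u`, then there are a unit vector
`e` and a profile `C` such that `σ f = C j + n` eventually on every ray
`u + j e' + n e` (`e' = perp e`), and either one of these lines is frozen completely and `μ` is
almost frozen, or `C j = c + j`, or `C j = c - j`, or `C j = c - |j - j₀|`. -/
theorem result :
    (∀ μ ∈ Gibbs, ∀ (σ : ℤ), (σ = 1 ∨ σ = -1) → ∀ (e v : ℤ × ℤ) (c : ℤ), |e.1| + |e.2| = 1 →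
      Ev μ σ v e c → Ev μ σ (v + perp e) e (c + 1) → Ev μ σ (v - perp e) e (c + 1) →
      Line μ σ v e c ∧ AlmostFrozen μ) ∧
    ∀ (μ : Measure (ℤ × ℤ → ℤ)), Extremal μ → ∀ (σ : ℤ), (σ = 1 ∨ σ = -1) → ∀ u : ℤ × ℤ,
      (∃ m : ℤ, ∀ᵐ f ∂μ, m ≤ σ * f u) →
      ∃ (e : ℤ × ℤ) (C : ℤ → ℤ), |e.1| + |e.2| = 1 ∧ (∀ j : ℤ, Ev μ σ (u + j • perp e) e (C j)) ∧
        (((∃ j, Line μ σ (u + j • perp e) e (C j)) ∧ AlmostFrozen μ) ∨
          (∃ c, ∀ j, C j = c + j) ∨ (∃ c, ∀ j, C j = c - j) ∨ ∃ c j0, ∀ j, C j = c - |j - j0|) := by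
  have hslide : ∀ μ ∈ Gibbs, ∀ (σ : ℤ), (σ = 1 ∨ σ = -1) → ∀ (e v : ℤ × ℤ) (c : ℤ),
      |e.1| + |e.2| = 1 →
      Ev μ σ v e c → Ev μ σ (v + perp e) e (c + 1) → Ev μ σ (v - perp e) e (c + 1) →
      Line μ σ v e c ∧ AlmostFrozen μ := by
    intro μ hμ σ hσ e v c he h0 h1 h2
    have h3 : Line μ σ v e c := line_frozen hμ hσ he v h0 h1 h2
    exact ⟨h3, almostFrozen_of_line hμ hσ he h3⟩
  refine ⟨hslide, ?_⟩
  intro μ hμ σ hσ u ⟨m, hm⟩
  obtain ⟨k0, e, he, hk⟩ := ae_ray hμ u hσ hm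
  choose c hc using fun v => ae_profile hμ hσ he hk v
  refine ⟨e, fun j => c (u + j • perp e), he, fun j => hc _, ?_⟩
  by_cases hmin : ∃ j : ℤ, c (u + (j + 1) • perp e) = c (u + j • perp e) + 1 ∧
      c (u + (j - 1) • perp e) = c (u + j • perp e) + 1
  · obtain ⟨j, hj1, hj2⟩ := hmin
    left
    have e1 : u + j • perp e + perp e = u + (j + 1) • perp e := by
      rw [add_smul, one_smul, add_assoc]
    have e2 : u + j • perp e - perp e = u + (j - 1) • perp e := by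
      rw [sub_smul, one_smul, add_sub_assoc]
    have h := hslide μ hμ.1 σ hσ e (u + j • perp e) (c (u + j • perp e)) he (hc _)
      (by rw [e1, ← hj1]; exact hc _) (by rw [e2, ← hj2]; exact hc _)
    exact ⟨⟨j, h.1⟩, h.2⟩
  · right
    push Not at hmin
    refine profile_cases (fun j => c (u + j • perp e)) ?_ ?_
    · intro j
      have e1 : u + j • perp e + perp e = u + (j + 1) • perp e := by
        rw [add_smul, one_smul, add_assoc]
      refine profile_step hμ.1 hσ he (u + j • perp e) (hc _) ?_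
      rw [e1]
      exact hc _
    · rintro j ⟨hj1, hj2⟩
      exact hmin j hj1 hj2

end Pool.Agent.Results.MP_151d89_pr.LineFreezing
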