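import Pool.Agent.W5h92.HH.Main

/-!
# MP_151d89_pr : extremal Gibbs measures of homomorphism height functions without full support

`Hom`, `Gibbs`, `Extremal` (the notions of the frozen statement) are defined in
`Pool.Agent.W5h92.HH`.
-/

set_option autoImplicit false

open MeasureTheory Filter
open scoped ENNReal Topology

namespace Pool.Agent.Results.MP_151d89_pr.SupportDichotomy

open Pool.Agent.W5h92.HH

/-- `μ` is almost frozen in the direction `e` with slope `σ`, and moreover there is a deterministic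
profile `C` such that almost surely every ray in direction `e` is exactly frozen far out. -/
def Frozen (μ : Measure (ℤ × ℤ → ℤ)) (e : ℤ × ℤ) (σ : ℤ) : Prop :=
  |e.1| + |e.2| = 1 ∧
  (∃ C : ℤ × ℤ → ℤ, ∀ v : ℤ × ℤ, ∀ᵐ f ∂μ, ∀ᶠ n : ℕ in atTop,
    f (v + (n : ℤ) • e) = C v + σ * n) ∧
  ∀ v : ℤ × ℤ, ∀ᵐ f ∂μ,
    Tendsto (fun n : ℕ => ((f (v + (n : ℤ) • e) - f v : ℤ) : ℝ) / (n : ℝ)) atTop (𝓝 (σ : ℝ))

theorem frozen_of {μ : Measure (ℤ × ℤ → ℤ)} (hμ : Extremal μ) (u : ℤ × ℤ) {σ : ℤ}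
    (hσ : σ = 1 ∨ σ = -1) (h : ∃ m : ℤ, ∀ᵐ f ∂μ, m ≤ σ * f u) :
    ∃ e, Frozen μ e σ := by
  obtain ⟨m, hm⟩ := h
  obtain ⟨k0, e, he, hk⟩ := ae_ray hμ u hσ hm
  choose c hc using fun v => ae_profile hμ hσ he hk v
  refine ⟨e, he, ⟨fun v => σ * c v, ?_⟩, ?_⟩
  · intro v
    filter_upwards [hc v] with f hf
    filter_upwards [hf] with n hn
    rcases hσ with rfl | rfl
    · linarith
    · linarith
  · intro v
    filter_upwards [hk, hμ.1.2.1] with f hf hhom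
    exact ratio hhom hσ hf v

/-- Let `μ` be an extremal Gibbs measure for homomorphism height functions on `ℤ²`, `u` a site.
(1) If `f u` is bounded below almost surely, `μ` is almost frozen.
(2) If `f u` is bounded above almost surely, the image of `μ` under `f ↦ -f` is almost frozen.
(3) Otherwise `μ` has full support, and almost surely `‖y - u‖₁ - |f y| → ∞`. -/
theorem result (μ : Measure (ℤ × ℤ → ℤ)) (hμ : Extremal μ) (u : ℤ × ℤ) :
    ((∃ m : ℤ, ∀ᵐ f ∂μ, m ≤ f u) → ∃ e, Frozen μ e 1) ∧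
    ((∃ m : ℤ, ∀ᵐ f ∂μ, f u ≤ m) → ∃ e, Frozen μ e (-1)) ∧
    ((¬ ∃ m : ℤ, ∀ᵐ f ∂μ, m ≤ f u) → (¬ ∃ m : ℤ, ∀ᵐ f ∂μ, f u ≤ m) →
      (∀ p : ℤ × ℤ → ℤ, Hom p → μ {f | Even (f u - p u)} ≠ 0 →
        ∀ Δ : Finset (ℤ × ℤ), 0 < μ {f | ∀ x ∈ Δ, f x = p x}) ∧
      ∀ᵐ f ∂μ, ∀ M : ℤ, {y : ℤ × ℤ | d u y - M < |f y|}.Finite) := by
  refine ⟨fun h => ?_, fun h => ?_, fun h1 h2 => ⟨?_, ?_⟩⟩
  · exact frozen_of hμ u (Or.inl rfl) (by simpa using h)
  · refine frozen_of hμ u (Or.inr rfl) ?_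
    obtain ⟨m, hm⟩ := h
    refine ⟨-m, ?_⟩
    filter_upwards [hm] with f hf
    linarith
  · intro p hp hpar Δ
    exact full hμ u h1 h2 p hp hpar Δ
  · filter_upwards [ae_low hμ u h1, ae_high hμ u h2] with f h3 h4 M
    obtain ⟨g, hg, hfg, hgu⟩ := h3 (-M)
    obtain ⟨k, hk, hfk, hku⟩ := h4 M
    refine (hfg.union hfk).subset fun y hy => ?_
    by_contra hc
    simp only [Set.mem_union, Set.mem_ofPred_eq, not_or, not_not] at hc
    have h5 := hg.lip y u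
    have h6 := hk.lip y u
    have h7 : d y u = d u y := by simp [d, abs_sub_comm]
    have hy' : d u y - M < |f y| := hy
    rw [h7] at h5 h6
    rw [← hc.1] at h5
    rw [← hc.2] at h6
    simp only [Int.abs_eq_natAbs] at h5 h6 hy'
    omega

end Pool.Agent.Results.MP_151d89_pr.SupportDichotomy
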